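import Pool.Agent.helper61.CSW.W.SpecW

/-! csw: LIM: the limit of the difference of the integrals over the sets `FKE` and `KE`. -/

set_option autoImplicit false

open Complex Metric Set Filter Topology MeasureTheory
open YPPS (fd fdd pre TT CV IsCyc rho Exact)
open MPS (BB)
open Pool.Agent.helper98.ILF (juliaSet fatouSet)

noncomputable section

open CSS (SE SV JJ)

namespace YW

/-- the integral over `S` is split. -/
theorem LIM_split {E : Type*} [NormedAddCommGroup E] [NormedSpace ℝ E] {ι : Type*} [Fintype ι] (h : ℂ → E) (S O : Set ℂ) (B : ι → Set ℂ)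
    (hS : MeasurableSet S) (hO : MeasurableSet O) (hB : ∀ i, MeasurableSet (B i)) (hcov : ∀ z, z ∉ O → ∃ i, z ∈ B i)
    (hd1 : ∀ z ∈ O, ∀ i, z ∉ B i) (hd2 : ∀ i j z, z ∈ B i → z ∈ B j → i = j) (hint : IntegrableOn h S) :
    ∫ z in S, h z = (∫ z in S ∩ O, h z) + ∑ i, ∫ z in S ∩ B i, h z := by
  classical
  have h1 : S.indicator h = fun z => (S ∩ O).indicator h z + ∑ i, (S ∩ B i).indicator h z := by
    funext z
    by_cases hzS : z ∈ S
    · rw [indicator_of_mem hzS]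
      by_cases hzO : z ∈ O
      · rw [indicator_of_mem (show z ∈ S ∩ O from ⟨hzS, hzO⟩), Finset.sum_eq_zero, add_zero]
        intro i _
        exact indicator_of_notMem (fun hh => hd1 z hzO i hh.2) _
      · obtain ⟨i, hi⟩ := hcov z hzO
        rw [indicator_of_notMem (show z ∉ S ∩ O from fun hh => hzO hh.2), zero_add, Finset.sum_eq_single i,
          indicator_of_mem (show z ∈ S ∩ B i from ⟨hzS, hi⟩)]
        · intro j _ hj
          exact indicator_of_notMem (fun hh => hj (hd2 j i z hh.2 hi)) _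
        · intro hh
          exact absurd (Finset.mem_univ i) hh
    · rw [indicator_of_notMem hzS, indicator_of_notMem (show z ∉ S ∩ O from fun hh => hzS hh.1), zero_add, Finset.sum_eq_zero]
      intro i _
      exact indicator_of_notMem (fun hh => hzS hh.1) _
  have hi0 : Integrable ((S ∩ O).indicator h) := by
    rw [integrable_indicator_iff (hS.inter hO)]
    exact hint.mono_set inter_subset_left
  have hi1 : ∀ i, Integrable ((S ∩ B i).indicator h) := by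
    intro i
    rw [integrable_indicator_iff (hS.inter (hB i))]
    exact hint.mono_set inter_subset_left
  rw [← integral_indicator hS, h1, integral_add hi0 (integrable_finset_sum _ fun i _ => hi1 i), integral_finset_sum _ fun i _ => hi1 i,
    integral_indicator (hS.inter hO)]
  congr 1
  refine Finset.sum_congr rfl fun i _ => ?_
  rw [integral_indicator (hS.inter (hB i))]

/-- difference of two integrals. -/
theorem LIM_sd (ψ : ℂ → ℂ) (u : ℂ → ℝ) (A C D : Set ℂ) (hA : MeasurableSet A) (hC : MeasurableSet C) (hD : MeasurableSet D)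
    (hiA : IntegrableOn ψ A) (hiC : IntegrableOn ψ C) (hiD : IntegrableOn u D) (hu : ∀ z, ‖ψ z‖ ≤ u z)
    (hsd : ∀ z, ¬ (z ∈ C ↔ z ∈ A) → z ∈ D) : ‖(∫ z in A, ψ z) - ∫ z in C, ψ z‖ ≤ ∫ z in D, u z := by
  have h1 : (∫ z in A, ψ z) - ∫ z in C, ψ z = ∫ z, (A.indicator ψ z - C.indicator ψ z) := by
    rw [integral_sub ((integrable_indicator_iff hA).2 hiA) ((integrable_indicator_iff hC).2 hiC), integral_indicator hA, integral_indicator hC]
  rw [h1, ← integral_indicator hD]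
  refine norm_integral_le_of_norm_le ((integrable_indicator_iff hD).2 hiD) ?_
  filter_upwards with z
  have hu0 : 0 ≤ u z := (norm_nonneg _).trans (hu z)
  have hDn : 0 ≤ D.indicator u z := indicator_nonneg (fun _ _ => (norm_nonneg _).trans (hu _)) z
  by_cases hzA : z ∈ A <;> by_cases hzC : z ∈ C
  · rw [indicator_of_mem hzA, indicator_of_mem hzC, sub_self, norm_zero]
    exact hDn
  · rw [indicator_of_mem hzA, indicator_of_notMem hzC, sub_zero, indicator_of_mem (hsd z (fun h => hzC (h.2 hzA)))]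
    exact hu z
  · rw [indicator_of_notMem hzA, indicator_of_mem hzC, zero_sub, norm_neg, indicator_of_mem (hsd z (fun h => hzA (h.1 hzC)))]
    exact hu z
  · rw [indicator_of_notMem hzA, indicator_of_notMem hzC, sub_self, norm_zero]
    exact hDn

theorem LIM_meas {f : SE} (X : NP f) {k : ℕ} [NeZero k] (b g : ZMod k → ℂ) (c₁ c₂ : ℂ) : Measurable (qc X b g c₁ c₂) := by
  unfold qc BB rr
  fun_prop

/-- the behaviour of `q` at a point of the cycle. -/
theorem LIM_loc {f : SE} (X : NP f) {k : ℕ} [NeZero k] (b g : ZMod k → ℂ) (c₁ c₂ : ℂ) (h : CQ f X b g c₁ c₂) (i : ZMod k) :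
    ∃ M : ℝ, 0 ≤ M ∧ ∃ R > (0 : ℝ), ∀ z : ℂ, z ≠ b i → ‖z - b i‖ < R → ‖qc X b g c₁ c₂ z - 1 / (z - b i) ^ 2‖ ≤ M / ‖z - b i‖ := by
  classical
  let ρ : ℂ → ℂ := fun z => (∑ j ∈ Finset.univ.erase i, (1 / (z - b j) ^ 2 + g j / (z - b j))) + rr X c₁ c₂ z
  have hρ : ContinuousAt ρ (b i) := by
    refine ContinuousAt.add ?_ ?_
    · refine tendsto_finsetSum _ fun j hj => ?_
      have hne : b i - b j ≠ 0 := sub_ne_zero.2 (fun hh => (Finset.ne_of_mem_erase hj) (h.cyc.inj hh.symm))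
      exact ((continuousAt_const.div ((continuousAt_id.sub continuousAt_const).pow 2) (pow_ne_zero 2 hne)).add
        (continuousAt_const.div (continuousAt_id.sub continuousAt_const) hne))
    · unfold rr
      exact ((continuousAt_const.div (continuousAt_id.sub continuousAt_const) (sub_ne_zero.2 (h.np1 i))).add
        (continuousAt_const.div (continuousAt_id.sub continuousAt_const) (sub_ne_zero.2 (h.np2 i))))
  obtain ⟨R, hR, hRb⟩ := Metric.continuousAt_iff.1 hρ 1 one_pos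
  refine ⟨‖g i‖ + (‖ρ (b i)‖ + 1), by positivity, min R 1, lt_min hR one_pos, ?_⟩
  intro z hz hzR
  have h1 : qc X b g c₁ c₂ z - 1 / (z - b i) ^ 2 = g i / (z - b i) + ρ z := by
    show (∑ j, (1 / (z - b j) ^ 2 + g j / (z - b j))) + rr X c₁ c₂ z - 1 / (z - b i) ^ 2 = g i / (z - b i) + ((∑ j ∈ Finset.univ.erase i, (1 / (z - b j) ^ 2 + g j / (z - b j))) + rr X c₁ c₂ z)
    rw [← Finset.add_sum_erase Finset.univ _ (Finset.mem_univ i)]
    ring
  have h0 : 0 < ‖z - b i‖ := norm_pos_iff.2 (sub_ne_zero.2 hz)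
  have h2 : ‖ρ z‖ ≤ ‖ρ (b i)‖ + 1 := by
    have h3 := hRb (x := z) (by rw [dist_eq_norm]; exact lt_of_lt_of_le hzR (min_le_left _ _))
    rw [dist_eq_norm] at h3
    calc ‖ρ z‖ = ‖ρ (b i) + (ρ z - ρ (b i))‖ := by congr 1; ring
      _ ≤ ‖ρ (b i)‖ + ‖ρ z - ρ (b i)‖ := norm_add_le _ _
      _ ≤ _ := by linarith
  rw [h1, add_div]
  refine (norm_add_le _ _).trans (add_le_add (le_of_eq (norm_div _ _)) ?_)
  rw [le_div_iff₀ h0]
  have h4 : ‖z - b i‖ ≤ 1 := (lt_of_lt_of_le hzR (min_le_right _ _)).le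
  calc ‖ρ z‖ * ‖z - b i‖ ≤ (‖ρ (b i)‖ + 1) * 1 := mul_le_mul h2 h4 h0.le (by positivity)
    _ = ‖ρ (b i)‖ + 1 := mul_one _

/-- far part: the integral over the part of `O` outside `FKE` tends to `0`. -/
theorem LIM_far (hCRC : SPPS.CRC_stmt) (f : SE) {k : ℕ} [NeZero k] (b : ZMod k → ℂ) (κ : ZMod k → ℝ) (hκ : ∀ i, 0 < κ i) (q : ℂ → ℂ) (O : Set ℂ)
    (hO : MeasurableSet O) (hq : IntegrableOn q O) (τ : ℝ) (hτ : 0 < τ) :
    ∃ ε₀ > (0 : ℝ), ∀ ε : ℝ, 0 < ε → ε < ε₀ → (∫ z in O \ FKE f b κ ε, ‖q z‖) ≤ τ := by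
  have hfm : Measurable (fun z : ℂ => f.eval z) := f.dif.continuous.measurable
  have hFm : ∀ ε : ℝ, MeasurableSet (FKE f b κ ε) := by
    intro ε
    have h1 : FKE f b κ ε = ⋂ i, {z : ℂ | ε * κ i ≤ ‖f.eval z - b i‖} := by
      ext z
      simp [FKE, KE]
    rw [h1]
    exact MeasurableSet.iInter fun i => measurableSet_le measurable_const ((hfm.sub_const _).norm)
  let s : ℕ → Set ℂ := fun n => O \ FKE f b κ (1 / ((n : ℝ) + 1))
  have hmono : ∀ ε ε' : ℝ, ε ≤ ε' → O \ FKE f b κ ε ⊆ O \ FKE f b κ ε' := by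
    intro ε ε' hle z hz
    refine ⟨hz.1, fun hh => hz.2 ?_⟩
    intro i
    exact (mul_le_mul_of_nonneg_right hle (hκ i).le).trans (hh i)
  have hanti : Antitone s := by
    intro m n hmn
    apply hmono
    apply one_div_le_one_div_of_le (by positivity)
    have : (m : ℝ) ≤ n := by exact_mod_cast hmn
    linarith
  have hlim := MeasureTheory.tendsto_setIntegral_of_antitone (μ := (volume : Measure ℂ)) (f := fun z => ‖q z‖) (s := s)
    (fun n => hO.diff (hFm _)) hanti ⟨0, (hq.mono_set diff_subset).norm⟩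
  have hnull : (volume : Measure ℂ) (⋂ n, s n) = 0 := by
    have hsub : (⋂ n, s n) ⊆ {y : ℂ | f.eval y ∈ Set.range b} := by
      intro z hz
      rw [mem_iInter] at hz
      by_contra hc
      have hpos : ∀ i, 0 < ‖f.eval z - b i‖ := fun i => norm_pos_iff.2 (sub_ne_zero.2 fun hh => hc ⟨i, hh.symm⟩)
      obtain ⟨δ, hδ, hδi⟩ : ∃ δ > (0 : ℝ), ∀ i, δ * κ i ≤ ‖f.eval z - b i‖ := by
        obtain ⟨i₀, hi₀⟩ := Finite.exists_min (fun i => ‖f.eval z - b i‖ / κ i)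
        refine ⟨‖f.eval z - b i₀‖ / κ i₀, div_pos (hpos _) (hκ _), fun i => ?_⟩
        exact (le_div_iff₀ (hκ i)).1 (hi₀ i)
      obtain ⟨n, hn⟩ := exists_nat_one_div_lt hδ
      exact (hz n).2 (fun i => (mul_le_mul_of_nonneg_right hn.le (hκ i).le).trans (hδi i))
    exact measure_mono_null hsub (((hCRC f).2.1 (Set.range b) (Set.finite_range b).countable).measure_zero _)
  rw [setIntegral_measure_zero _ hnull] at hlim
  obtain ⟨n, hn⟩ := ((hlim.eventually (gt_mem_nhds hτ)).exists)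
  refine ⟨1 / ((n : ℝ) + 1), by positivity, fun ε hε hεn => ?_⟩
  refine le_trans ?_ hn.le
  apply setIntegral_mono_set (hq.mono_set diff_subset).norm
  · exact Eventually.of_forall fun z => norm_nonneg _
  · exact Eventually.of_forall (hmono ε _ hεn.le)

/-- all local data for small `ε`. -/
structure LIM_D (f : SE) {k : ℕ} [NeZero k] (b : ZMod k → ℂ) (κ r : ZMod k → ℝ) (q : ℂ → ℂ) (τ ε : ℝ) : Prop where
  kin : ∀ i, ∀ z ∈ ball (b i) (r i), (z ∈ KE b κ ε ↔ ε * κ i ≤ ‖z - b i‖)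
  fin : ∀ i, ∀ z ∈ ball (b i) (r i), (z ∈ FKE f b κ ε ↔ ε * κ (i + 1) ≤ ‖f.eval z - b (i + 1)‖)
  out : ∀ z, (∀ i, z ∉ ball (b i) (r i)) → z ∈ KE b κ ε
  far : (∫ z in {z | ∀ i, z ∉ ball (b i) (r i)} \ FKE f b κ ε, ‖q z‖) ≤ τ
  e1 : ∀ i, (∫ z in {z : ℂ | ‖z - b i‖ < r i ∧ ¬ (ε * κ i ≤ ‖z - b i‖ ↔ ε * κ (i + 1) ≤ ‖f.eval z - f.eval (b i)‖)}, ‖q z‖) ≤
    2 * Real.pi * |Real.log (κ (i + 1) / (‖fd f (b i)‖ * κ i))| + τ
  e2 : ∀ i, IntegrableOn q {z : ℂ | ‖z - b i‖ < r i ∧ (ε * κ i ≤ ‖z - b i‖ ∨ ε * κ (i + 1) ≤ ‖f.eval z - f.eval (b i)‖)}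
  e3 : ∀ i, (∫ z in {z : ℂ | ‖z - b i‖ < r i ∧ ε * κ (i + 1) ≤ ‖f.eval z - f.eval (b i)‖}, ‖q z‖) -
    (∫ z in {z : ℂ | ‖z - b i‖ < r i ∧ ε * κ i ≤ ‖z - b i‖}, ‖q z‖) ≤ 2 * Real.pi * Real.log (‖fd f (b i)‖ * κ i / κ (i + 1)) + τ

theorem LIM_core (hCRC : SPPS.CRC_stmt) (hRNA : RNA_stmt) (hQIN : QIN_stmt) (f : SE) (X : NP f) (k : ℕ) [NeZero k] (b g : ZMod k → ℂ) (c₁ c₂ : ℂ)
    (h : CQ f X b g c₁ c₂) (κ : ZMod k → ℝ) (hκ : ∀ i, 0 < κ i) (R : ZMod k → ℝ) (hR : ∀ i, 0 < R i) (τ : ℝ) (hτ : 0 < τ) :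
    ∃ r : ZMod k → ℝ, (∀ i, 0 < r i ∧ r i ≤ R i) ∧ (∀ i j z, z ∈ ball (b i) (r i) → z ∈ ball (b j) (r j) → i = j) ∧
      ∃ ε₀ > (0 : ℝ), ∀ ε : ℝ, 0 < ε → ε < ε₀ → LIM_D f b κ r (qc X b g c₁ c₂) τ ε := by
  classical
  -- the minimal distance
  obtain ⟨δ, hδ, hδd⟩ : ∃ δ > (0 : ℝ), ∀ i j, i ≠ j → 2 * δ ≤ ‖b i - b j‖ := by
    have h1 : ∀ p : ZMod k × ZMod k, 0 < (if p.1 = p.2 then (1 : ℝ) else ‖b p.1 - b p.2‖) := by
      intro p
      split_ifs with hp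
      · exact one_pos
      · exact norm_pos_iff.2 (sub_ne_zero.2 fun hh => hp (h.cyc.inj hh))
    obtain ⟨p₀, hp₀⟩ := Finite.exists_min (fun p : ZMod k × ZMod k => (if p.1 = p.2 then (1 : ℝ) else ‖b p.1 - b p.2‖))
    refine ⟨(if p₀.1 = p₀.2 then (1 : ℝ) else ‖b p₀.1 - b p₀.2‖) / 2, half_pos (h1 p₀), fun i j hij => ?_⟩
    have h2 := hp₀ (i, j)
    simp only [if_neg hij] at h2
    linarith
  -- the local estimates
  have hfd : Differentiable ℂ (fun z : ℂ => f.eval z) := f.dif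
  have hloc : ∀ i, ∃ M : ℝ, 0 ≤ M ∧ ∃ s > (0 : ℝ), s ≤ R i ∧ s ≤ δ ∧
      (∀ z : ℂ, z ≠ b i → ‖z - b i‖ < s → ‖qc X b g c₁ c₂ z - 1 / (z - b i) ^ 2‖ ≤ M / ‖z - b i‖) ∧
      ∀ z ∈ ball (b i) s, ‖f.eval z - b (i + 1)‖ < δ := by
    intro i
    obtain ⟨M, hM, R₁, hR₁, hq⟩ := LIM_loc X b g c₁ c₂ h i
    obtain ⟨R₂, hR₂, hf⟩ := Metric.continuousAt_iff.1 (hfd (b i)).continuousAt δ hδ
    refine ⟨M, hM, min (min (R i) δ) (min R₁ R₂), lt_min (lt_min (hR i) hδ) (lt_min hR₁ hR₂),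
      (min_le_left _ _).trans (min_le_left _ _), (min_le_left _ _).trans (min_le_right _ _), ?_, ?_⟩
    · intro z hz hzR
      exact hq z hz (lt_of_lt_of_le hzR ((min_le_right _ _).trans (min_le_left _ _)))
    · intro z hz
      have h2 := hf (x := z) (lt_of_lt_of_le (mem_ball.1 hz) ((min_le_right _ _).trans (min_le_right _ _)))
      rw [dist_eq_norm] at h2
      rw [h.cyc.step i] at h2
      exact h2
  choose M hM s hs hsR hsδ hsq hsf using hloc
  have hrna : ∀ i, _ := fun i => hRNA (fun z : ℂ => f.eval z) (qc X b g c₁ c₂) (b i) (s i) (M i) (hs i) (hM i)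
    (hfd.differentiableOn) (h.cyc.ne0 i) (LIM_meas X b g c₁ c₂) (hsq i) (κ i) (κ (i + 1)) τ (hκ i) (hκ (i + 1)) hτ
  choose r hr hrs ε₁ hε₁ hest using hrna
  -- the far part
  obtain ⟨δ', hδ', hδ'r⟩ : ∃ δ' > (0 : ℝ), ∀ i, δ' ≤ r i := by
    obtain ⟨i₀, hi₀⟩ := Finite.exists_min r
    exact ⟨r i₀, hr i₀, hi₀⟩
  have hOm : MeasurableSet {z : ℂ | ∀ i, z ∉ ball (b i) (r i)} := by
    have h1 : {z : ℂ | ∀ i, z ∉ ball (b i) (r i)} = ⋂ i, (ball (b i) (r i))ᶜ := by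
      ext z
      simp
    rw [h1]
    exact MeasurableSet.iInter fun i => measurableSet_ball.compl
  have hOint : IntegrableOn (qc X b g c₁ c₂) {z : ℂ | ∀ i, z ∉ ball (b i) (r i)} := by
    refine ((hQIN f X k b g c₁ c₂ h).1 δ' hδ').mono_set ?_
    intro z hz i
    have h1 := hz i
    rw [mem_ball, dist_eq_norm, not_lt] at h1
    exact (hδ'r i).trans h1
  obtain ⟨ε₂, hε₂, hfar⟩ := LIM_far hCRC f b κ hκ (qc X b g c₁ c₂) _ hOm hOint τ hτ
  -- bounds for ε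
  obtain ⟨ε₃, hε₃, hε₃b⟩ : ∃ ε₃ > (0 : ℝ), ∀ ε, 0 < ε → ε < ε₃ → ∀ i, ε * κ i ≤ δ ∧ ε * κ i ≤ r i ∧ ε < ε₁ i := by
    have h1 : ∀ i, 0 < min (min (δ / κ i) (r i / κ i)) (ε₁ i) := fun i => lt_min (lt_min (div_pos hδ (hκ i)) (div_pos (hr i) (hκ i))) (hε₁ i)
    obtain ⟨i₀, hi₀⟩ := Finite.exists_min (fun i => min (min (δ / κ i) (r i / κ i)) (ε₁ i))
    refine ⟨_, h1 i₀, fun ε hε hεl i => ?_⟩
    have h2 := lt_of_lt_of_le hεl (hi₀ i)
    refine ⟨?_, ?_, lt_of_lt_of_le h2 (min_le_right _ _)⟩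
    · exact ((lt_div_iff₀ (hκ i)).1 (lt_of_lt_of_le h2 ((min_le_left _ _).trans (min_le_left _ _)))).le
    · exact ((lt_div_iff₀ (hκ i)).1 (lt_of_lt_of_le h2 ((min_le_left _ _).trans (min_le_right _ _)))).le
  refine ⟨r, fun i => ⟨hr i, (hrs i).trans (hsR i)⟩, ?_, min ε₂ ε₃, lt_min hε₂ hε₃, ?_⟩
  · intro i j z hzi hzj
    by_contra hij
    have h1 := hδd i j hij
    rw [mem_ball, dist_eq_norm] at hzi hzj
    have h2 : ‖b i - b j‖ ≤ ‖z - b i‖ + ‖z - b j‖ := by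
      calc ‖b i - b j‖ = ‖(z - b j) - (z - b i)‖ := by congr 1; ring
        _ ≤ ‖z - b j‖ + ‖z - b i‖ := norm_sub_le _ _
        _ = _ := add_comm _ _
    have h3 := (hrs i).trans (hsδ i)
    have h4 := (hrs j).trans (hsδ j)
    linarith
  · intro ε hε hεl
    have hb := hε₃b ε hε (lt_of_lt_of_le hεl (min_le_right _ _))
    have hstep : ∀ i, f.eval (b i) = b (i + 1) := h.cyc.step
    refine ⟨?_, ?_, ?_, hfar ε hε (lt_of_lt_of_le hεl (min_le_left _ _)), ?_, ?_, ?_⟩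
    · intro i z hz
      refine ⟨fun hh => hh i, fun hh j => ?_⟩
      by_cases hij : i = j
      · subst hij; exact hh
      · have h1 := hδd i j hij
        rw [mem_ball, dist_eq_norm] at hz
        have h2 : ‖b i - b j‖ ≤ ‖z - b j‖ + ‖z - b i‖ := by
          calc ‖b i - b j‖ = ‖(z - b j) - (z - b i)‖ := by congr 1; ring
            _ ≤ _ := norm_sub_le _ _
        have h3 := (hrs i).trans (hsδ i)
        have h4 := (hb j).1
        linarith
    · intro i z hz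
      refine ⟨fun hh => hh (i + 1), fun hh j => ?_⟩
      by_cases hij : i + 1 = j
      · subst hij; exact hh
      · have h1 := hδd (i + 1) j hij
        have h5 := hsf i z (ball_subset_ball (hrs i) hz)
        have h2 : ‖b (i + 1) - b j‖ ≤ ‖f.eval z - b j‖ + ‖f.eval z - b (i + 1)‖ := by
          calc ‖b (i + 1) - b j‖ = ‖(f.eval z - b j) - (f.eval z - b (i + 1))‖ := by congr 1; ring
            _ ≤ _ := norm_sub_le _ _
        have h4 := (hb j).1
        show ε * κ j ≤ ‖f.eval z - b j‖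
        linarith
    · intro z hz i
      have h1 := hz i
      rw [mem_ball, dist_eq_norm, not_lt] at h1
      exact (hb i).2.1.trans h1
    · intro i
      exact (hest i ε hε (hb i).2.2).1
    · intro i
      exact (hest i ε hε (hb i).2.2).2.1
    · intro i
      exact (hest i ε hε (hb i).2.2).2.2

/-- decomposition of the difference. -/
theorem LIM_dec {E : Type*} [NormedAddCommGroup E] [NormedSpace ℝ E] (f : SE) {k : ℕ} [NeZero k] (b : ZMod k → ℂ) (κ r : ZMod k → ℝ) (q : ℂ → ℂ) (τ ε : ℝ) (_D : LIM_D f b κ r q τ ε)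
    (hdj : ∀ i j z, z ∈ ball (b i) (r i) → z ∈ ball (b j) (r j) → i = j)
    (hmS : MeasurableSet (FKE f b κ ε)) (hmK : MeasurableSet (KE b κ ε)) (ψ : ℂ → E) (hiS : IntegrableOn ψ (FKE f b κ ε)) (hiK : IntegrableOn ψ (KE b κ ε)) :
    (∫ z in FKE f b κ ε, ψ z) - (∫ z in KE b κ ε, ψ z) =
      ((∫ z in FKE f b κ ε ∩ {z | ∀ i, z ∉ ball (b i) (r i)}, ψ z) - (∫ z in KE b κ ε ∩ {z | ∀ i, z ∉ ball (b i) (r i)}, ψ z)) +
      ∑ i, ((∫ z in FKE f b κ ε ∩ ball (b i) (r i), ψ z) - (∫ z in KE b κ ε ∩ ball (b i) (r i), ψ z)) := by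
  have hOm : MeasurableSet {z : ℂ | ∀ i, z ∉ ball (b i) (r i)} := by
    have h1 : {z : ℂ | ∀ i, z ∉ ball (b i) (r i)} = ⋂ i, (ball (b i) (r i))ᶜ := by
      ext z
      simp
    rw [h1]
    exact MeasurableSet.iInter fun i => measurableSet_ball.compl
  have hcov : ∀ z, z ∉ {z : ℂ | ∀ i, z ∉ ball (b i) (r i)} → ∃ i, z ∈ ball (b i) (r i) := by
    intro z hz
    by_contra hc
    exact hz (fun i hi => hc ⟨i, hi⟩)
  rw [LIM_split ψ (FKE f b κ ε) {z | ∀ i, z ∉ ball (b i) (r i)} (fun i => ball (b i) (r i)) hmS hOm (fun i => measurableSet_ball) hcov (fun z hz i => hz i) hdj hiS,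
    LIM_split ψ (KE b κ ε) {z | ∀ i, z ∉ ball (b i) (r i)} (fun i => ball (b i) (r i)) hmK hOm (fun i => measurableSet_ball) hcov (fun z hz i => hz i) hdj hiK,
    Finset.sum_sub_distrib]
  abel

theorem LIM_Dm (f : SE) (b c : ℂ) (r s t : ℝ) :
    MeasurableSet {z : ℂ | ‖z - b‖ < r ∧ ¬ (s ≤ ‖z - b‖ ↔ t ≤ ‖f.eval z - c‖)} := by
  have hfm : Measurable (fun z : ℂ => f.eval z) := f.dif.continuous.measurable
  have h1 : MeasurableSet {z : ℂ | ‖z - b‖ < r} := measurableSet_lt (measurable_id.sub_const b).norm measurable_const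
  have h2 : MeasurableSet {z : ℂ | s ≤ ‖z - b‖} := measurableSet_le measurable_const (measurable_id.sub_const b).norm
  have h3 : MeasurableSet {z : ℂ | t ≤ ‖f.eval z - c‖} := measurableSet_le measurable_const (hfm.sub_const c).norm
  have h4 : {z : ℂ | ‖z - b‖ < r ∧ ¬ (s ≤ ‖z - b‖ ↔ t ≤ ‖f.eval z - c‖)} =
      {z : ℂ | ‖z - b‖ < r} ∩ (({z : ℂ | s ≤ ‖z - b‖} \ {z : ℂ | t ≤ ‖f.eval z - c‖}) ∪ ({z : ℂ | t ≤ ‖f.eval z - c‖} \ {z : ℂ | s ≤ ‖z - b‖})) := by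
    ext z
    simp only [mem_setOf_eq, mem_inter_iff, mem_union, Set.mem_sdiff]
    tauto
  rw [h4]
  exact h1.inter ((h2.diff h3).union (h3.diff h2))

theorem LIM (hCRC : SPPS.CRC_stmt) (hRNA : RNA_stmt) (hQIN : QIN_stmt) : LIM_stmt := by
  intro f X k _ b g c₁ c₂ h κ hκ τ hτ
  have hk0 : (0 : ℝ) ≤ (k : ℝ) := Nat.cast_nonneg k
  obtain ⟨τ', hτ'0, hτ'⟩ : ∃ τ' > (0 : ℝ), τ' + (k : ℝ) * τ' ≤ τ := by
    refine ⟨τ / (1 + k), by positivity, ?_⟩
    have : τ / (1 + (k : ℝ)) + (k : ℝ) * (τ / (1 + k)) = τ := by field_simp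
    exact this.le
  have hcard : (Finset.univ : Finset (ZMod k)).card = k := by
    rw [Finset.card_univ, ZMod.card]
  have hq := hQIN f X k b g c₁ c₂ h
  have hOm : ∀ r : ZMod k → ℝ, MeasurableSet {z : ℂ | ∀ i, z ∉ ball (b i) (r i)} := by
    intro r
    have h1 : {z : ℂ | ∀ i, z ∉ ball (b i) (r i)} = ⋂ i, (ball (b i) (r i))ᶜ := by
      ext z
      simp
    rw [h1]
    exact MeasurableSet.iInter fun i => measurableSet_ball.compl
  have hqm := LIM_meas X b g c₁ c₂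
  constructor
  · intro φ hφm hφ1
    -- common estimate
    have hψ : ∀ S : Set ℂ, IntegrableOn (qc X b g c₁ c₂) S → IntegrableOn (fun z => φ z * qc X b g c₁ c₂ z) S := by
      intro S hS
      refine Integrable.mono hS (hφm.mul hqm).aestronglyMeasurable (Eventually.of_forall fun z => ?_)
      rw [norm_mul]
      calc ‖φ z‖ * ‖qc X b g c₁ c₂ z‖ ≤ 1 * ‖qc X b g c₁ c₂ z‖ := mul_le_mul_of_nonneg_right (hφ1 z) (norm_nonneg _)
        _ = _ := one_mul _
    have hψu : ∀ z, ‖φ z * qc X b g c₁ c₂ z‖ ≤ ‖qc X b g c₁ c₂ z‖ := by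
      intro z
      rw [norm_mul]
      calc ‖φ z‖ * ‖qc X b g c₁ c₂ z‖ ≤ 1 * ‖qc X b g c₁ c₂ z‖ := mul_le_mul_of_nonneg_right (hφ1 z) (norm_nonneg _)
        _ = _ := one_mul _
    have hgen : ∀ (r : ZMod k → ℝ) (ε : ℝ), 0 < ε → (∀ i j z, z ∈ ball (b i) (r i) → z ∈ ball (b j) (r j) → i = j) →
        LIM_D f b κ r (qc X b g c₁ c₂) τ' ε → ∀ u : ZMod k → ℝ,
        (∀ i, ‖(∫ z in FKE f b κ ε ∩ ball (b i) (r i), φ z * qc X b g c₁ c₂ z) - ∫ z in KE b κ ε ∩ ball (b i) (r i), φ z * qc X b g c₁ c₂ z‖ ≤ u i) →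
        ‖(∫ z in FKE f b κ ε, φ z * qc X b g c₁ c₂ z) - ∫ z in KE b κ ε, φ z * qc X b g c₁ c₂ z‖ ≤ τ' + ∑ i, u i := by
      intro r ε hε hdj D u hu
      obtain ⟨hmK, hmS, hiK, hiS⟩ := hq.2.2 κ hκ ε hε
      rw [LIM_dec f b κ r (qc X b g c₁ c₂) τ' ε D hdj hmS hmK (fun z => φ z * qc X b g c₁ c₂ z) (hψ _ hiS) (hψ _ hiK)]
      refine (norm_add_le _ _).trans (add_le_add ?_ ?_)
      · refine le_trans ?_ D.far
        refine LIM_sd (fun z => φ z * qc X b g c₁ c₂ z) (fun z => ‖qc X b g c₁ c₂ z‖) _ _ _ (hmS.inter (hOm r)) (hmK.inter (hOm r)) ((hOm r).diff hmS)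
          ((hψ _ hiS).mono_set inter_subset_left) ((hψ _ hiK).mono_set inter_subset_left) ?_ hψu ?_
        · refine (hiK.mono_set ?_).norm
          intro z hz
          exact D.out z hz.1
        · intro z hz
          by_contra hc
          apply hz
          constructor
          · rintro ⟨_, hzO⟩
            refine ⟨?_, hzO⟩
            by_contra hzS
            exact hc ⟨hzO, hzS⟩
          · rintro ⟨_, hzO⟩
            exact ⟨D.out z hzO, hzO⟩
      · refine (norm_sum_le _ _).trans (Finset.sum_le_sum fun i _ => hu i)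
    -- the first bound
    have hfirst : ∀ (r : ZMod k → ℝ) (ε : ℝ), 0 < ε → (∀ i j z, z ∈ ball (b i) (r i) → z ∈ ball (b j) (r j) → i = j) →
        LIM_D f b κ r (qc X b g c₁ c₂) τ' ε →
        ‖(∫ z in FKE f b κ ε, φ z * qc X b g c₁ c₂ z) - ∫ z in KE b κ ε, φ z * qc X b g c₁ c₂ z‖ ≤
          2 * Real.pi * ∑ i, |Real.log (κ (i + 1) / (‖fd f (b i)‖ * κ i))| + τ := by
      intro r ε hε hdj D
      obtain ⟨hmK, hmS, hiK, hiS⟩ := hq.2.2 κ hκ ε hε
      have h1 := hgen r ε hε hdj D (fun i => 2 * Real.pi * |Real.log (κ (i + 1) / (‖fd f (b i)‖ * κ i))| + τ') (by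
        intro i
        refine le_trans ?_ (D.e1 i)
        refine LIM_sd (fun z => φ z * qc X b g c₁ c₂ z) (fun z => ‖qc X b g c₁ c₂ z‖) _ _ _ (hmS.inter measurableSet_ball) (hmK.inter measurableSet_ball)
          (LIM_Dm f (b i) _ _ _ _) ((hψ _ hiS).mono_set inter_subset_left) ((hψ _ hiK).mono_set inter_subset_left) ?_ hψu ?_
        · refine ((D.e2 i).mono_set ?_).norm
          rintro z ⟨hz1, hz2⟩
          refine ⟨hz1, ?_⟩
          by_contra hc
          push Not at hc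
          exact hz2 ⟨fun hh => absurd hh (not_le.2 hc.1), fun hh => absurd hh (not_le.2 hc.2)⟩
        · intro z hz
          have hzB : z ∈ ball (b i) (r i) := by
            by_contra hc
            exact hz ⟨fun hh => absurd hh.2 hc, fun hh => absurd hh.2 hc⟩
          refine ⟨by rw [mem_ball, dist_eq_norm] at hzB; exact hzB, fun hh => hz ?_⟩
          rw [h.cyc.step i] at hh
          constructor
          · rintro ⟨hzK, _⟩
            exact ⟨(D.fin i z hzB).2 (hh.1 ((D.kin i z hzB).1 hzK)), hzB⟩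
          · rintro ⟨hzS, _⟩
            exact ⟨(D.kin i z hzB).2 (hh.2 ((D.fin i z hzB).1 hzS)), hzB⟩)
      refine h1.trans ?_
      rw [Finset.sum_add_distrib, Finset.sum_const, hcard, ← Finset.mul_sum, nsmul_eq_mul]
      linarith
    obtain ⟨r, hr, hdj, ε₁, hε₁, hD⟩ := LIM_core hCRC hRNA hQIN f X k b g c₁ c₂ h κ hκ (fun _ => 1) (fun _ => one_pos) τ' hτ'0
    by_cases hz : ∀ i, ∃ r > (0 : ℝ), ∀ z ∈ ball (b i) r, φ z = 0
    · choose ρ hρ hφ0 using hz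
      obtain ⟨r', hr', hdj', ε₂, hε₂, hD'⟩ := LIM_core hCRC hRNA hQIN f X k b g c₁ c₂ h κ hκ ρ hρ τ' hτ'0
      refine ⟨min ε₁ ε₂, lt_min hε₁ hε₂, fun ε hε hεl => ⟨hfirst r ε hε hdj (hD ε hε (lt_of_lt_of_le hεl (min_le_left _ _))), fun _ => ?_⟩⟩
      have D := hD' ε hε (lt_of_lt_of_le hεl (min_le_right _ _))
      have h1 := hgen r' ε hε hdj' D (fun _ => 0) (by
        intro i
        have hzero : ∀ S : Set ℂ, MeasurableSet S → ∫ z in S ∩ ball (b i) (r' i), φ z * qc X b g c₁ c₂ z = 0 := by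
          intro S _
          apply setIntegral_eq_zero_of_forall_eq_zero
          intro z hz
          rw [hφ0 i z (ball_subset_ball (hr' i).2 hz.2), zero_mul]
        obtain ⟨hmK, hmS, _, _⟩ := hq.2.2 κ hκ ε hε
        rw [hzero _ hmS, hzero _ hmK, sub_zero, norm_zero])
      refine h1.trans ?_
      rw [Finset.sum_const_zero, add_zero]
      have : 0 ≤ (k : ℝ) * τ' := by positivity
      linarith
    · exact ⟨ε₁, hε₁, fun ε hε hεl => ⟨hfirst r ε hε hdj (hD ε hε hεl), fun hh => absurd hh hz⟩⟩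
  · obtain ⟨r, hr, hdj, ε₁, hε₁, hD⟩ := LIM_core hCRC hRNA hQIN f X k b g c₁ c₂ h κ hκ (fun _ => 1) (fun _ => one_pos) τ' hτ'0
    refine ⟨ε₁, hε₁, fun ε hε hεl => ?_⟩
    have D := hD ε hε hεl
    obtain ⟨hmK, hmS, hiK, hiS⟩ := hq.2.2 κ hκ ε hε
    rw [LIM_dec f b κ r (qc X b g c₁ c₂) τ' ε D hdj hmS hmK (fun z => ‖qc X b g c₁ c₂ z‖) hiS.norm hiK.norm]
    have hfar : (∫ z in FKE f b κ ε ∩ {z | ∀ i, z ∉ ball (b i) (r i)}, ‖qc X b g c₁ c₂ z‖) - (∫ z in KE b κ ε ∩ {z | ∀ i, z ∉ ball (b i) (r i)}, ‖qc X b g c₁ c₂ z‖) ≤ 0 := by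
      rw [sub_nonpos]
      apply setIntegral_mono_set (hiK.mono_set inter_subset_left).norm
      · exact Eventually.of_forall fun z => norm_nonneg _
      · exact Eventually.of_forall fun z hz => ⟨D.out z hz.2, hz.2⟩
    have hnear : ∀ i, (∫ z in FKE f b κ ε ∩ ball (b i) (r i), ‖qc X b g c₁ c₂ z‖) - (∫ z in KE b κ ε ∩ ball (b i) (r i), ‖qc X b g c₁ c₂ z‖) ≤
        2 * Real.pi * (Real.log ‖fd f (b i)‖ + Real.log (κ i) - Real.log (κ (i + 1))) + τ' := by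
      intro i
      have h1 : FKE f b κ ε ∩ ball (b i) (r i) = {z : ℂ | ‖z - b i‖ < r i ∧ ε * κ (i + 1) ≤ ‖f.eval z - f.eval (b i)‖} := by
        ext z
        rw [h.cyc.step i]
        constructor
        · rintro ⟨hzS, hzB⟩
          exact ⟨by rw [mem_ball, dist_eq_norm] at hzB; exact hzB, (D.fin i z hzB).1 hzS⟩
        · rintro ⟨hz1, hz2⟩
          have hzB : z ∈ ball (b i) (r i) := by rw [mem_ball, dist_eq_norm]; exact hz1
          exact ⟨(D.fin i z hzB).2 hz2, hzB⟩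
      have h2 : KE b κ ε ∩ ball (b i) (r i) = {z : ℂ | ‖z - b i‖ < r i ∧ ε * κ i ≤ ‖z - b i‖} := by
        ext z
        constructor
        · rintro ⟨hzS, hzB⟩
          exact ⟨by rw [mem_ball, dist_eq_norm] at hzB; exact hzB, (D.kin i z hzB).1 hzS⟩
        · rintro ⟨hz1, hz2⟩
          have hzB : z ∈ ball (b i) (r i) := by rw [mem_ball, dist_eq_norm]; exact hz1
          exact ⟨(D.kin i z hzB).2 hz2, hzB⟩
      rw [h1, h2]
      refine (D.e3 i).trans (le_of_eq ?_)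
      have ha : ‖fd f (b i)‖ ≠ 0 := norm_ne_zero_iff.2 (h.cyc.ne0 i)
      rw [Real.log_div (mul_ne_zero ha (hκ i).ne') (hκ (i + 1)).ne', Real.log_mul ha (hκ i).ne']
    have hsum : ∑ i, (2 * Real.pi * (Real.log ‖fd f (b i)‖ + Real.log (κ i) - Real.log (κ (i + 1))) + τ') = 2 * Real.pi * Real.log ‖rho f b‖ + k * τ' := by
      rw [Finset.sum_add_distrib, Finset.sum_const, hcard, nsmul_eq_mul, ← Finset.mul_sum, Finset.sum_sub_distrib, Finset.sum_add_distrib]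
      have h1 : ∑ i, Real.log (κ (i + 1)) = ∑ i, Real.log (κ i) := Equiv.sum_comp (Equiv.addRight (1 : ZMod k)) (fun i => Real.log (κ i))
      have h2 : Real.log ‖rho f b‖ = ∑ i, Real.log ‖fd f (b i)‖ := by
        show Real.log ‖∏ i, fd f (b i)‖ = _
        rw [norm_prod, Real.log_prod]
        intro i _
        exact norm_ne_zero_iff.2 (h.cyc.ne0 i)
      rw [h1, h2, add_sub_cancel_right]
    calc _ ≤ 0 + ∑ i, (2 * Real.pi * (Real.log ‖fd f (b i)‖ + Real.log (κ i) - Real.log (κ (i + 1))) + τ') :=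
          add_le_add hfar (Finset.sum_le_sum fun i _ => hnear i)
      _ = 2 * Real.pi * Real.log ‖rho f b‖ + k * τ' := by rw [zero_add, hsum]
      _ ≤ _ := by linarith

end YW
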